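import Pool.Agent.V11332.InvDom

/-!
# MP_dbe012: background noise and inverse stochastic dominance

We disprove Q1: for `n = 3` there are `X, Y ∈ L¹` with `μ_{1:1}`, `μ_{1:2}` equal and
`μ^X_{1:3} > μ^Y_{1:3}` such that for no integrable independent noise `Z` is
`X + Z ≤₃⁻ Y + Z` (not even weakly).
-/

namespace Pool.Agent.Results.MP_dbe012_pr.NoNoise

open MeasureTheory ProbabilityTheory Set Filter Topology
open Pool.Agent.V11332.Quantile Pool.Agent.V11332.InvDom

/-- `F_X^{[-n]}` for a random variable `X` with law `μ`, `n ≥ 1`: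
`F^{[-1]}(p) = inf {x : F(x) ≥ p}` and `F^{[-n]}(p) = ∫₀ᵖ F^{[-(n-1)]}(u) du`. -/
noncomputable def invF (μ : Measure ℝ) (n : ℕ) : ℝ → ℝ := iq μ (n - 1)

/-- `X ≤ₙ⁻ Y` in terms of the laws of `X` and `Y`. -/
def InvLE (n : ℕ) (μ ν : Measure ℝ) : Prop :=
  ∀ p ∈ Ioo (0 : ℝ) 1, invF μ n p ≤ invF ν n p

/-- `X <ₙ⁻ Y` in terms of the laws of `X` and `Y`. -/
def InvLT (n : ℕ) (μ ν : Measure ℝ) : Prop :=
  InvLE n μ ν ∧ ∃ p ∈ Ioo (0 : ℝ) 1, invF μ n p < invF ν n p

/-- The mean of the minimum `μ_{1:k} = k ∫₀¹ F⁻¹(u) (1-u)^{k-1} du`. -/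
noncomputable def mm (μ : Measure ℝ) (k : ℕ) : ℝ :=
  k * ∫ u in (0 : ℝ)..1, Q μ u * (1 - u) ^ (k - 1)

/-! ### The first law -/

noncomputable def qX (u : ℝ) : ℝ := if u ≤ 1 / 2 then -17 / 24 else 5 / 24

noncomputable def gY (u : ℝ) : ℝ := 1 - 1 / (2 * √u)

noncomputable def qY (u : ℝ) : ℝ := if u ≤ 1 / 4 then gY u else 0

lemma gY_meas : Measurable gY := by unfold gY; fun_prop

lemma qX_meas : Measurable qX :=
  Measurable.ite measurableSet_Iic measurable_const measurable_const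

lemma qY_meas : Measurable qY :=
  Measurable.ite measurableSet_Iic gY_meas measurable_const

lemma qX_mono : MonotoneOn qX (Ioo 0 1) := by
  intro u _ v _ huv
  unfold qX
  split_ifs <;> norm_num
  linarith

lemma gY_mono {u v : ℝ} (hu : 0 < u) (huv : u ≤ v) : gY u ≤ gY v := by
  unfold gY
  have h1 : 0 < √u := Real.sqrt_pos.2 hu
  have h2 : √u ≤ √v := Real.sqrt_le_sqrt huv
  have : 1 / (2 * √v) ≤ 1 / (2 * √u) := by
    apply one_div_le_one_div_of_le <;> linarith
  linarith

lemma sqrt_quarter : √(1 / 4 : ℝ) = 1 / 2 := by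
  rw [show (1 / 4 : ℝ) = (1 / 2) ^ 2 by norm_num]
  exact Real.sqrt_sq (by norm_num)

lemma gY_quarter : gY (1 / 4) = 0 := by
  unfold gY; rw [sqrt_quarter]; norm_num

lemma qY_mono : MonotoneOn qY (Ioo 0 1) := by
  intro u hu v hv huv
  unfold qY
  split_ifs with h1 h2
  · exact gY_mono hu.1 huv
  · have := gY_mono hu.1 h1
    rwa [gY_quarter] at this
  · linarith
  · exact le_rfl

lemma qX_left (p : ℝ) : ContinuousWithinAt qX (Iio p) p := by
  unfold qX
  rcases le_or_gt p (1 / 2) with h | h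
  · refine (continuousWithinAt_const (b := (-17 / 24 : ℝ))).congr ?_ ?_
    · intro y hy; rw [if_pos (hy.le.trans h)]
    · rw [if_pos h]
  · have : (fun u : ℝ => if u ≤ 1 / 2 then (-17 / 24 : ℝ) else 5 / 24) =ᶠ[𝓝 p] fun _ => 5 / 24 := by
      filter_upwards [lt_mem_nhds h] with y hy
      rw [if_neg (not_le.2 hy)]
    exact (continuousAt_const.congr this.symm).continuousWithinAt

lemma gY_cont {p : ℝ} (hp : 0 < p) : ContinuousAt gY p := by
  unfold gY
  have : 2 * √p ≠ 0 := by have := Real.sqrt_pos.2 hp; positivity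
  fun_prop (disch := assumption)

lemma qY_left (p : ℝ) (hp : p ∈ Ioo (0 : ℝ) 1) : ContinuousWithinAt qY (Iio p) p := by
  unfold qY
  rcases le_or_gt p (1 / 4) with h | h
  · refine (gY_cont hp.1).continuousWithinAt.congr ?_ ?_
    · intro y hy; rw [if_pos (hy.le.trans h)]
    · rw [if_pos h]
  · have : (fun u : ℝ => if u ≤ 1 / 4 then gY u else 0) =ᶠ[𝓝 p] fun _ => 0 := by
      filter_upwards [lt_mem_nhds h] with y hy
      rw [if_neg (not_le.2 hy)]
    exact (continuousAt_const.congr this.symm).continuousWithinAt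

/-- integral of a function of `qX`. -/
lemma int_qX (f : ℝ → ℝ) : ∫ u, f (qX u) ∂lam = (f (-17 / 24) + f (5 / 24)) / 2 := by
  unfold lam
  rw [← integral_Ioc_eq_integral_Ioo, ← intervalIntegral.integral_of_le zero_le_one]
  have h1 : EqOn (fun u => f (qX u)) (fun _ => f (-17 / 24)) (uIoc (0:ℝ) (1 / 2)) := by
    intro u hu
    rw [uIoc_of_le (by norm_num)] at hu
    simp only [qX]; rw [if_pos hu.2]
  have h2 : EqOn (fun u => f (qX u)) (fun _ => f (5 / 24)) (uIoc (1 / 2 : ℝ) 1) := by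
    intro u hu
    rw [uIoc_of_le (by norm_num)] at hu
    simp only [qX]; rw [if_neg (not_le.2 hu.1)]
  have i1 : IntervalIntegrable (fun u => f (qX u)) volume 0 (1 / 2) :=
    (intervalIntegrable_const (c := f (-17 / 24))).congr (h1.symm)
  have i2 : IntervalIntegrable (fun u => f (qX u)) volume (1 / 2) 1 :=
    (intervalIntegrable_const (c := f (5 / 24))).congr (h2.symm)
  rw [← intervalIntegral.integral_add_adjacent_intervals i1 i2,
    intervalIntegral.integral_congr_ae (Eventually.of_forall h1),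
    intervalIntegral.integral_congr_ae (Eventually.of_forall h2)]
  simp only [intervalIntegral.integral_const, smul_eq_mul]
  ring

lemma qX_int : Integrable qX lam := by
  refine Integrable.of_bound qX_meas.aestronglyMeasurable 1 (Eventually.of_forall fun u => ?_)
  unfold qX
  split_ifs <;> (rw [Real.norm_eq_abs, abs_le]; norm_num)

lemma gY_ii : IntervalIntegrable gY volume 0 1 := by
  unfold gY
  refine intervalIntegrable_const.sub ?_
  have h := (intervalIntegral.intervalIntegrable_rpow' (a := 0) (b := 1) (r := -(1/2))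
    (by norm_num)).const_mul (1 / 2)
  refine h.congr ?_
  intro u hu
  rw [uIoc_of_le zero_le_one] at hu
  simp only
  rw [Real.rpow_neg hu.1.le, ← Real.sqrt_eq_rpow]
  have : √u ≠ 0 := (Real.sqrt_pos.2 hu.1).ne'
  field_simp

lemma qY_int : Integrable qY lam := by
  have h1 : Integrable gY lam := by
    have := gY_ii
    rw [intervalIntegrable_iff_integrableOn_Ioo_of_le zero_le_one] at this
    exact this
  have h2 := h1.indicator (s := Iic (1 / 4)) measurableSet_Iic
  refine h2.congr (Eventually.of_forall fun u => ?_)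
  simp [qY, Set.indicator_apply]

instance : IsProbabilityMeasure (lam.map qX) :=
  Measure.isProbabilityMeasure_map qX_meas.aemeasurable

instance : IsProbabilityMeasure (lam.map qY) :=
  Measure.isProbabilityMeasure_map qY_meas.aemeasurable

lemma Q_X {p : ℝ} (hp : p ∈ Ioo (0 : ℝ) 1) : Q (lam.map qX) p = qX p :=
  Q_map qX_meas qX_mono (fun p _ => qX_left p) hp

lemma Q_Y {p : ℝ} (hp : p ∈ Ioo (0 : ℝ) 1) : Q (lam.map qY) p = qY p :=
  Q_map qY_meas qY_mono qY_left hp

/-- replace an integrand on `(0,p)` -/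
lemma ii_congr {f g : ℝ → ℝ} {p : ℝ} (hp0 : 0 ≤ p)
    (h : ∀ u ∈ Ioo (0 : ℝ) p, f u = g u) : ∫ u in (0 : ℝ)..p, f u = ∫ u in (0 : ℝ)..p, g u := by
  rw [intervalIntegral.integral_of_le hp0, intervalIntegral.integral_of_le hp0,
    integral_Ioc_eq_integral_Ioo, integral_Ioc_eq_integral_Ioo]
  exact setIntegral_congr_fun measurableSet_Ioo h

lemma mm_eq {q : ℝ → ℝ} (h : ∀ p ∈ Ioo (0 : ℝ) 1, Q (lam.map q) p = q p) (k : ℕ) :
    mm (lam.map q) k = k * ∫ u in (0 : ℝ)..1, q u * (1 - u) ^ (k - 1) := by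
  unfold mm
  rw [ii_congr zero_le_one (fun u hu => by rw [h u hu])]

lemma iq2_eq {q : ℝ → ℝ} (h : ∀ p ∈ Ioo (0 : ℝ) 1, Q (lam.map q) p = q p) {p : ℝ} (hp0 : 0 ≤ p)
    (hp1 : p ≤ 1) :
    iq (lam.map q) 2 p = ∫ r in (0 : ℝ)..p, ∫ u in (0 : ℝ)..r, q u := by
  change ∫ r in (0 : ℝ)..p, ∫ u in (0 : ℝ)..r, Q (lam.map q) u = _
  refine ii_congr hp0 fun r hr => ?_
  exact ii_congr hr.1.le fun u hu => h u ⟨hu.1, hu.2.trans (hr.2.trans_le hp1)⟩

/-! integrals for `qX` -/

lemma int_qX_w (w : ℝ → ℝ) (hw : Continuous w) :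
    ∫ u in (0 : ℝ)..1, qX u * w u
      = -17 / 24 * (∫ u in (0 : ℝ)..(1 / 2), w u) + 5 / 24 * ∫ u in (1 / 2 : ℝ)..1, w u := by
  have h1 : EqOn (fun u => qX u * w u) (fun u => -17 / 24 * w u) (uIoc (0:ℝ) (1 / 2)) := by
    intro u hu
    rw [uIoc_of_le (by norm_num)] at hu
    simp only [qX]; rw [if_pos hu.2]
  have h2 : EqOn (fun u => qX u * w u) (fun u => 5 / 24 * w u) (uIoc (1 / 2 : ℝ) 1) := by
    intro u hu
    rw [uIoc_of_le (by norm_num)] at hu
    simp only [qX]; rw [if_neg (not_le.2 hu.1)]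
  have i1 : IntervalIntegrable (fun u => qX u * w u) volume 0 (1 / 2) :=
    ((continuous_const.mul hw).intervalIntegrable _ _).congr (h1.symm)
  have i2 : IntervalIntegrable (fun u => qX u * w u) volume (1 / 2) 1 :=
    ((continuous_const.mul hw).intervalIntegrable _ _).congr (h2.symm)
  rw [← intervalIntegral.integral_add_adjacent_intervals i1 i2,
    intervalIntegral.integral_congr_ae (Eventually.of_forall h1),
    intervalIntegral.integral_congr_ae (Eventually.of_forall h2),
    intervalIntegral.integral_const_mul, intervalIntegral.integral_const_mul]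

lemma int_qY_w (w : ℝ → ℝ) (hw : Continuous w) :
    ∫ u in (0 : ℝ)..1, qY u * w u = ∫ u in (0 : ℝ)..(1 / 4), gY u * w u := by
  have h1 : EqOn (fun u => qY u * w u) (fun u => gY u * w u) (uIoc (0:ℝ) (1 / 4)) := by
    intro u hu
    rw [uIoc_of_le (by norm_num)] at hu
    simp only [qY]; rw [if_pos hu.2]
  have h2 : EqOn (fun u => qY u * w u) (fun u => 0) (uIoc (1 / 4 : ℝ) 1) := by
    intro u hu
    rw [uIoc_of_le (by norm_num)] at hu
    simp only [qY]; rw [if_neg (not_le.2 hu.1), zero_mul]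
  have i0 : IntervalIntegrable gY volume 0 (1 / 4) := gY_ii.mono_set (by
    rw [uIcc_of_le (by norm_num), uIcc_of_le (by norm_num)]
    exact Icc_subset_Icc_right (by norm_num))
  have i1 : IntervalIntegrable (fun u => qY u * w u) volume 0 (1 / 4) :=
    (i0.mul_continuousOn hw.continuousOn).congr (h1.symm)
  have i2 : IntervalIntegrable (fun u => qY u * w u) volume (1 / 4) 1 :=
    (intervalIntegrable_const (c := (0:ℝ))).congr (h2.symm)
  rw [← intervalIntegral.integral_add_adjacent_intervals i1 i2,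
    intervalIntegral.integral_congr_ae (Eventually.of_forall h1),
    intervalIntegral.integral_congr_ae (Eventually.of_forall h2)]
  simp

/-- FTC on `[0,r]` for integrands `gY * w`. -/
lemma ftc_gY {w P R R' : ℝ → ℝ} (hw : Continuous w)
    (hP : ∀ u, HasDerivAt P (w u) u) (hR : ∀ u, HasDerivAt R (R' u) u)
    (hRw : ∀ u, R u + 2 * u * R' u = w u) (hR0 : P 0 = 0) {r : ℝ} (hr0 : 0 ≤ r) (hr1 : r ≤ 1) :
    ∫ u in (0 : ℝ)..r, gY u * w u = P r - √r * R r := by
  have hcR : Continuous R := continuous_iff_continuousAt.2 fun u => (hR u).continuousAt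
  have hcP : Continuous P := continuous_iff_continuousAt.2 fun u => (hP u).continuousAt
  have i0 : IntervalIntegrable gY volume 0 r := gY_ii.mono_set (by
    rw [uIcc_of_le hr0, uIcc_of_le (by norm_num)]
    exact Icc_subset_Icc_right hr1)
  have := intervalIntegral.integral_eq_sub_of_hasDerivAt_of_le hr0
    (f := fun u => P u - √u * R u) (f' := fun u => gY u * w u)
    ((hcP.sub (Real.continuous_sqrt.mul hcR)).continuousOn) ?_ (i0.mul_continuousOn hw.continuousOn)
  · rw [this]; simp [hR0]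
  · intro u hu
    have h1 := (hP u).sub ((Real.hasDerivAt_sqrt hu.1.ne').mul (hR u))
    refine h1.congr_deriv ?_
    have hs : 0 < √u := Real.sqrt_pos.2 hu.1
    have hss : √u * √u = u := Real.mul_self_sqrt hu.1.le
    unfold gY
    have e1 : 1 / (2 * √u) * w u = 1 / (2 * √u) * R u + √u * R' u := by
      rw [← hRw u]
      field_simp
      linear_combination (-R' u) * hss * 2
    linarith [e1]

lemma mmX1 : mm (lam.map qX) 1 = -1 / 4 := by
  rw [mm_eq (fun p hp => Q_X hp), int_qX_w _ (by fun_prop)]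
  simp; norm_num

lemma mmX2 : mm (lam.map qX) 2 = -23 / 48 := by
  rw [mm_eq (fun p hp => Q_X hp), int_qX_w _ (by fun_prop)]
  rw [intervalIntegral.integral_comp_sub_left (fun x => x ^ (2 - 1)) 1,
    intervalIntegral.integral_comp_sub_left (fun x => x ^ (2 - 1)) 1, integral_pow, integral_pow]
  norm_num

lemma mmX3 : mm (lam.map qX) 3 = -19 / 32 := by
  rw [mm_eq (fun p hp => Q_X hp), int_qX_w _ (by fun_prop)]
  rw [intervalIntegral.integral_comp_sub_left (fun x => x ^ (3 - 1)) 1,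
    intervalIntegral.integral_comp_sub_left (fun x => x ^ (3 - 1)) 1, integral_pow, integral_pow]
  norm_num

lemma mmY1 : mm (lam.map qY) 1 = -1 / 4 := by
  rw [mm_eq (fun p hp => Q_Y hp), int_qY_w _ (by fun_prop)]
  rw [ftc_gY (w := fun u => (1 - u) ^ (1 - 1)) (P := fun u => u) (R := fun _ => 1) (R' := fun _ => 0)
    (by fun_prop) (fun u => hasDerivAt_id' u) (fun u => hasDerivAt_const u 1)
    (fun u => by simp) rfl (by norm_num) (by norm_num), sqrt_quarter]
  norm_num

lemma mmY2 : mm (lam.map qY) 2 = -23 / 48 := by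
  rw [mm_eq (fun p hp => Q_Y hp), int_qY_w _ (by fun_prop)]
  rw [ftc_gY (w := fun u => (1 - u) ^ (2 - 1)) (P := fun u => u - u ^ 2 / 2)
    (R := fun u => 1 - u / 3) (R' := fun _ => - 1 / 3)
    (by fun_prop) (fun u => ?_) (fun u => ?_) (fun u => ?_) (by norm_num) (by norm_num)
    (by norm_num), sqrt_quarter]
  · norm_num
  · have := (hasDerivAt_id u).sub ((hasDerivAt_pow 2 u).div_const 2)
    refine this.congr_deriv ?_
    ring
  · have := ((hasDerivAt_id u).div_const 3).const_sub 1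
    refine this.congr_deriv ?_
    ring
  · ring

lemma mmY3 : mm (lam.map qY) 3 = -221 / 320 := by
  rw [mm_eq (fun p hp => Q_Y hp), int_qY_w _ (by fun_prop)]
  rw [ftc_gY (w := fun u => (1 - u) ^ (3 - 1)) (P := fun u => u - u ^ 2 + u ^ 3 / 3)
    (R := fun u => 1 - 2 * u / 3 + u ^ 2 / 5) (R' := fun u => - 2 / 3 + 2 * u / 5)
    (by fun_prop) (fun u => ?_) (fun u => ?_) (fun u => ?_) (by norm_num) (by norm_num)
    (by norm_num), sqrt_quarter]
  · norm_num
  · have := ((hasDerivAt_id u).sub (hasDerivAt_pow 2 u)).add ((hasDerivAt_pow 3 u).div_const 3)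
    refine this.congr_deriv ?_
    simp only [Nat.cast_ofNat]
    ring
  · have := ((((hasDerivAt_id u).const_mul 2).div_const 3).const_sub 1).add
      ((hasDerivAt_pow 2 u).div_const 5)
    refine this.congr_deriv ?_
    simp only [Nat.cast_ofNat]
    ring
  · ring

/-! second iterated integrals -/

lemma iqX_half : iq (lam.map qX) 2 (1 / 2) = -17 / 192 := by
  rw [iq2_eq (fun p hp => Q_X hp) (by norm_num) (by norm_num)]
  have : ∫ r in (0 : ℝ)..(1 / 2), ∫ u in (0 : ℝ)..r, qX u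
      = ∫ r in (0 : ℝ)..(1 / 2), (-17 / 24) * r := by
    refine ii_congr (by norm_num) fun r hr => ?_
    rw [ii_congr (g := fun _ => -17 / 24) hr.1.le (fun u hu => ?_)]
    · simp; ring
    · unfold qX; rw [if_pos (hu.2.trans hr.2).le]
  rw [this, intervalIntegral.integral_const_mul, integral_id]
  norm_num

lemma inner_qY {r : ℝ} (hr0 : 0 ≤ r) (hr1 : r ≤ 1) :
    ∫ u in (0 : ℝ)..r, qY u = if r ≤ 1 / 4 then r - √r else -1 / 4 := by
  have key : ∀ s : ℝ, 0 ≤ s → s ≤ 1 / 4 → ∫ u in (0 : ℝ)..s, qY u = s - √s := by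
    intro s hs0 hs1
    have h1 := ftc_gY (w := fun u => 1) (P := fun u => u) (R := fun _ => 1) (R' := fun _ => 0)
      (by fun_prop) (fun u => hasDerivAt_id' u) (fun u => hasDerivAt_const u 1)
      (fun u => by simp) rfl hs0 (by linarith)
    rw [ii_congr (g := fun u => gY u * 1) hs0 (fun u hu => ?_), h1]
    · simp
    · unfold qY; rw [if_pos (hu.2.le.trans hs1), mul_one]
  split_ifs with h
  · exact key r hr0 h
  · push Not at h
    have hqi : IntervalIntegrable qY volume 0 1 := ii_of_lam qY_int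
    have i1 : IntervalIntegrable qY volume 0 (1 / 4) := hqi.mono_set (by
      rw [uIcc_of_le (by norm_num), uIcc_of_le (by norm_num)]
      exact Icc_subset_Icc_right (by norm_num))
    have h2 : EqOn qY (fun u => 0) (uIoc (1 / 4 : ℝ) r) := by
      intro u hu
      rw [uIoc_of_le h.le] at hu
      simp only [qY]; rw [if_neg (not_le.2 hu.1)]
    have i2 : IntervalIntegrable qY volume (1 / 4) r :=
      (intervalIntegrable_const (c := (0:ℝ))).congr (h2.symm)
    rw [← intervalIntegral.integral_add_adjacent_intervals i1 i2, key _ (by norm_num) le_rfl,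
      intervalIntegral.integral_congr_ae (Eventually.of_forall h2), sqrt_quarter]
    simp; norm_num

lemma int_sqrt_quarter : ∫ r in (0 : ℝ)..(1 / 4), √r = 1 / 12 := by
  have := intervalIntegral.integral_eq_sub_of_hasDerivAt_of_le (a := 0) (b := 1 / 4) (by norm_num)
    (f := fun u => 2 / 3 * (u * √u)) (f' := fun u => √u)
    (by fun_prop) ?_ (Real.continuous_sqrt.intervalIntegrable _ _)
  · rw [this, sqrt_quarter]; norm_num
  · intro u hu
    have h1 := ((hasDerivAt_id u).mul (Real.hasDerivAt_sqrt hu.1.ne')).const_mul (2 / 3 : ℝ)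
    refine h1.congr_deriv ?_
    have hs : 0 < √u := Real.sqrt_pos.2 hu.1
    have hss : √u * √u = u := Real.mul_self_sqrt hu.1.le
    simp only [id]
    field_simp
    linarith

lemma iqY {p : ℝ} (hp0 : 1 / 4 ≤ p) (hp1 : p ≤ 1) :
    iq (lam.map qY) 2 p = -5 / 96 - (p - 1 / 4) / 4 := by
  rw [iq2_eq (fun p hp => Q_Y hp) (by linarith) hp1]
  rw [ii_congr (g := fun r => if r ≤ 1 / 4 then r - √r else -1 / 4) (by linarith)
    (fun r hr => inner_qY hr.1.le (hr.2.le.trans hp1))]
  have h1 : EqOn (fun r : ℝ => if r ≤ 1 / 4 then r - √r else -1 / 4) (fun r => r - √r)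
      (uIoc (0:ℝ) (1 / 4)) := by
    intro u hu
    rw [uIoc_of_le (by norm_num)] at hu
    simp only; rw [if_pos hu.2]
  have h2 : EqOn (fun r : ℝ => if r ≤ 1 / 4 then r - √r else -1 / 4) (fun r => -1 / 4)
      (uIoc (1 / 4 : ℝ) p) := by
    intro u hu
    rw [uIoc_of_le hp0] at hu
    simp only; rw [if_neg (not_le.2 hu.1)]
  have c1 : Continuous fun r : ℝ => r - √r := by fun_prop
  have i1 := (c1.intervalIntegrable (μ := volume) 0 (1 / 4)).congr h1.symm
  have i2 := (intervalIntegrable_const (μ := volume) (a := 1/4) (b := p) (c := (-1 / 4 :ℝ))).congr h2.symm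
  rw [← intervalIntegral.integral_add_adjacent_intervals i1 i2,
      intervalIntegral.integral_congr_ae (Eventually.of_forall h1),
      intervalIntegral.integral_congr_ae (Eventually.of_forall h2),
      intervalIntegral.integral_sub (continuous_id'.intervalIntegrable _ _)
        (Real.continuous_sqrt.intervalIntegrable _ _), int_sqrt_quarter, integral_id]
  simp only [intervalIntegral.integral_const, smul_eq_mul]
  ring

/-! ### The symmetric potentials -/

lemma VX (t : ℝ) : ∫ p : ℝ × ℝ, |qX p.1 - qX p.2 + t| ∂(lam.prod lam)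
    = |t| / 2 + (|11 / 12 + t| + |11 / 12 - t|) / 4 := by
  have h1 : Integrable (fun p : ℝ × ℝ => qX p.1) (lam.prod lam) := qX_int.comp_fst lam
  have h2 : Integrable (fun p : ℝ × ℝ => qX p.2) (lam.prod lam) := qX_int.comp_snd lam
  have h3 : Integrable (fun p : ℝ × ℝ => |qX p.1 - qX p.2 + t|) (lam.prod lam) :=
    ((h1.sub h2).add (integrable_const t)).abs
  rw [integral_prod _ h3]
  have e1 : ∀ u : ℝ, ∫ v, |qX u - qX v + t| ∂lam
      = (|qX u - (-17 / 24) + t| + |qX u - 5 / 24 + t|) / 2 := fun u =>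
    int_qX (fun x => |qX u - x + t|)
  simp only [e1]
  rw [int_qX (fun x => (|x - (-17 / 24) + t| + |x - 5 / 24 + t|) / 2)]
  have a1 : (-17 / 24 : ℝ) - (-17 / 24) + t = t := by ring
  have a2 : (-17 / 24 : ℝ) - 5 / 24 + t = - (11 / 12 - t) := by ring
  have a3 : (5 / 24 : ℝ) - (-17 / 24) + t = 11 / 12 + t := by ring
  have a4 : (5 / 24 : ℝ) - 5 / 24 + t = t := by ring
  rw [a1, a2, a3, a4, abs_neg]
  ring

lemma VY0 : ∫ p : ℝ × ℝ, |qY p.1 - qY p.2| ∂(lam.prod lam) = 11 / 24 := by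
  rw [dblabs qY qY_int qY_mono]
  have h1 : ∫ u, qY u ∂lam = -1 / 4 := by
    unfold lam
    rw [← integral_Ioc_eq_integral_Ioo, ← intervalIntegral.integral_of_le zero_le_one,
      inner_qY zero_le_one le_rfl]
    norm_num
  have h2 := iqY (p := 1) (by norm_num) le_rfl
  rw [iq2_eq (fun p hp => Q_Y hp) zero_le_one le_rfl] at h2
  rw [h1, h2]
  norm_num

lemma VY_lower (t : ℝ) {c : ℝ} (B : Set ℝ) (hB : MeasurableSet B) (g : ℝ × ℝ → ℝ)
    (hg : Integrable g (lam.prod lam))
    (h : ∀ p : ℝ × ℝ, 0 < p.1 → 2 * g p + (B ×ˢ Ioi (1 / 4)).indicator (fun _ => 2 * c) p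
      ≤ |qY p.1 - qY p.2 + t| + |-(qY p.1 - qY p.2) + t|) :
    (∫ p, g p ∂(lam.prod lam)) + c * (lam.real B * (3 / 4))
      ≤ ∫ p : ℝ × ℝ, |qY p.1 - qY p.2 + t| ∂(lam.prod lam) := by
  have h1 : Integrable (fun p : ℝ × ℝ => qY p.1) (lam.prod lam) := qY_int.comp_fst lam
  have h2 : Integrable (fun p : ℝ × ℝ => qY p.2) (lam.prod lam) := qY_int.comp_snd lam
  have h3 : Integrable (fun p : ℝ × ℝ => |qY p.1 - qY p.2 + t|) (lam.prod lam) :=
    ((h1.sub h2).add (integrable_const t)).abs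
  have h4 : Integrable (fun p : ℝ × ℝ => |-(qY p.1 - qY p.2) + t|) (lam.prod lam) :=
    ((h1.sub h2).neg.add (integrable_const t)).abs
  have e : ∫ p : ℝ × ℝ, |qY p.1 - qY p.2 + t| ∂(lam.prod lam)
      = ∫ p : ℝ × ℝ, |-(qY p.1 - qY p.2) + t| ∂(lam.prod lam) := by
    rw [← integral_prod_swap]
    refine integral_congr_ae (Eventually.of_forall fun p => ?_)
    simp only [Prod.fst_swap, Prod.snd_swap]
    congr 1; ring
  have hms : MeasurableSet (B ×ˢ Ioi (1 / 4 : ℝ)) := hB.prod measurableSet_Ioi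
  have h5 : Integrable (fun p : ℝ × ℝ => (B ×ˢ Ioi (1 / 4)).indicator (fun _ => 2 * c) p)
      (lam.prod lam) := (integrable_const _).indicator hms
  have h6 : Integrable (fun p : ℝ × ℝ => 2 * g p) (lam.prod lam) := hg.const_mul 2
  have hpos : ∀ᵐ p : ℝ × ℝ ∂(lam.prod lam), 0 < p.1 := by
    have : ∀ᵐ u ∂lam, 0 < u := by
      unfold lam
      filter_upwards [ae_restrict_mem measurableSet_Ioo] with u hu using hu.1
    exact (Measure.quasiMeasurePreserving_fst (μ := lam) (ν := lam)).ae this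
  have h7 := integral_mono_ae (h6.add h5) (h3.add h4)
    (hpos.mono fun p hp => h p hp)
  simp only [Pi.add_apply] at h7
  rw [integral_add h6 h5, integral_add h3 h4, ← e, integral_const_mul,
    integral_indicator_const _ hms] at h7
  have h8 : (lam.prod lam).real (B ×ˢ Ioi (1 / 4 : ℝ)) = lam.real B * (3 / 4) := by
    rw [measureReal_def, Measure.prod_prod, ENNReal.toReal_mul]
    congr 1
    rw [lam, Measure.restrict_apply measurableSet_Ioi]
    have : Ioi (1 / 4 : ℝ) ∩ Ioo 0 1 = Ioo (1 / 4) 1 := by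
      ext u; simp only [mem_inter_iff, mem_Ioi, mem_Ioo]
      constructor
      · rintro ⟨a, b, c⟩; exact ⟨a, c⟩
      · rintro ⟨a, b⟩; exact ⟨a, by linarith, b⟩
    rw [this, Real.volume_Ioo, ENNReal.toReal_ofReal (by norm_num)]
    norm_num
  rw [h8, smul_eq_mul] at h7
  linarith

lemma lam_real_Ioi : lam.real (Ioi (1 / 4)) = 3 / 4 := by
  rw [measureReal_def, lam, Measure.restrict_apply measurableSet_Ioi]
  have : Ioi (1 / 4 : ℝ) ∩ Ioo 0 1 = Ioo (1 / 4) 1 := by
    ext u; simp only [mem_inter_iff, mem_Ioi, mem_Ioo]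
    constructor
    · rintro ⟨a, b, c⟩; exact ⟨a, c⟩
    · rintro ⟨a, b⟩; exact ⟨a, by linarith, b⟩
  rw [this, Real.volume_Ioo, ENNReal.toReal_ofReal (by norm_num)]
  norm_num

lemma VY_lower1 (t : ℝ) : 11 / 24 + 9 / 16 * |t|
    ≤ ∫ p : ℝ × ℝ, |qY p.1 - qY p.2 + t| ∂(lam.prod lam) := by
  have h1 : Integrable (fun p : ℝ × ℝ => qY p.1) (lam.prod lam) := qY_int.comp_fst lam
  have h2 : Integrable (fun p : ℝ × ℝ => qY p.2) (lam.prod lam) := qY_int.comp_snd lam
  have h := VY_lower t (c := |t|) (Ioi (1 / 4)) measurableSet_Ioi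
    (fun p => |qY p.1 - qY p.2|) (h1.sub h2).abs ?_
  · rw [VY0, lam_real_Ioi] at h
    linarith
  · intro p _
    by_cases hp : p ∈ Ioi (1 / 4 : ℝ) ×ˢ Ioi (1 / 4 : ℝ)
    · rw [indicator_of_mem hp]
      have a : qY p.1 = 0 := by unfold qY; rw [if_neg (not_le.2 hp.1)]
      have b : qY p.2 = 0 := by unfold qY; rw [if_neg (not_le.2 hp.2)]
      rw [a, b]; simp; linarith
    · rw [indicator_of_notMem hp]
      have a := abs_add_le (qY p.1 - qY p.2 + t) (-(-(qY p.1 - qY p.2) + t))
      rw [abs_neg] at a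
      have b : qY p.1 - qY p.2 + t + (-(-(qY p.1 - qY p.2) + t)) = 2 * (qY p.1 - qY p.2) := by ring
      rw [b, abs_mul, abs_two] at a
      linarith

lemma VY_lower2 (t : ℝ) : |t| < ∫ p : ℝ × ℝ, |qY p.1 - qY p.2 + t| ∂(lam.prod lam) := by
  set δ : ℝ := 1 / (4 * (|t| + 2) ^ 2) with hδ
  have ht : 0 ≤ |t| := abs_nonneg t
  have hδ0 : 0 < δ := by positivity
  have hδ1 : δ < 1 / 4 := by
    rw [hδ]; apply one_div_lt_one_div_of_lt (by norm_num); nlinarith
  have h := VY_lower t (c := 1) (Iio δ) measurableSet_Iio (fun _ => |t|) (integrable_const _) ?_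
  · have e1 : lam.real (Iio δ) = δ := by
      rw [measureReal_def, lam, Measure.restrict_apply measurableSet_Iio]
      have : Iio δ ∩ Ioo 0 1 = Ioo 0 δ := by
        ext u; simp only [mem_inter_iff, mem_Iio, mem_Ioo]
        constructor
        · rintro ⟨a, b, c⟩; exact ⟨b, a⟩
        · rintro ⟨a, b⟩; exact ⟨b, a, by linarith⟩
      rw [this, Real.volume_Ioo, ENNReal.toReal_ofReal (by linarith)]
      ring
    rw [e1] at h
    simp only [integral_const, probReal_univ, smul_eq_mul, one_mul] at h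
    linarith
  · intro p hp0
    have a := abs_add_le (qY p.1 - qY p.2 + t) (-(qY p.1 - qY p.2) + t)
    have b : qY p.1 - qY p.2 + t + (-(qY p.1 - qY p.2) + t) = 2 * t := by ring
    rw [b, abs_mul, abs_two] at a
    by_cases hp : p ∈ Iio δ ×ˢ Ioi (1 / 4 : ℝ)
    · rw [indicator_of_mem hp]
      have hp1 : p.1 < δ := hp.1
      have hp2 : 1 / 4 < p.2 := hp.2
      have c : qY p.1 = gY p.1 := by unfold qY; rw [if_pos (by linarith)]
      have d : qY p.2 = 0 := by unfold qY; rw [if_neg (not_le.2 hp2)]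
      have e : gY p.1 ≤ -(|t| + 1) := by
        unfold gY
        have hs : 0 < √p.1 := Real.sqrt_pos.2 hp0
        have h1 : √p.1 ≤ 1 / (2 * (|t| + 2)) := by
          apply Real.sqrt_le_iff.2
          refine ⟨by positivity, ?_⟩
          have : (1 / (2 * (|t| + 2))) ^ 2 = δ := by
            rw [hδ]; field_simp; norm_num
          rw [this]; exact hp1.le
        have h2 : |t| + 2 ≤ 1 / (2 * √p.1) := by
          rw [le_div_iff₀ (by positivity)]
          rw [le_div_iff₀ (by positivity)] at h1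
          linarith
        linarith
      rw [c, d]
      have f := neg_abs_le t
      have g := le_abs_self t
      rw [abs_of_nonpos (show gY p.1 - 0 + t ≤ 0 by linarith),
        abs_of_nonneg (show 0 ≤ -(gY p.1 - 0) + t by linarith)]
      linarith
    · rw [indicator_of_notMem hp]
      linarith

lemma VL_zero : VL (lam.map qX) 0 ≤ VL (lam.map qY) 0 := by
  rw [VL_map _ qX_int, VL_map _ qY_int]
  refine ENNReal.ofReal_le_ofReal ?_
  have := VY_lower1 0
  rw [VX]
  refine le_trans ?_ this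
  norm_num [abs_of_nonneg]

lemma VL_lt (t : ℝ) (ht : t ≠ 0) : VL (lam.map qX) t < VL (lam.map qY) t := by
  rw [VL_map _ qX_int, VL_map _ qY_int]
  have h0 : 0 < |t| := abs_pos.2 ht
  have h1 := VY_lower1 t
  have h2 := VY_lower2 t
  refine (ENNReal.ofReal_lt_ofReal_iff (by linarith)).2 ?_
  rw [VX]
  rcases le_or_gt |t| (11 / 12) with h | h
  · rw [abs_le] at h
    rw [abs_of_nonneg (show 0 ≤ 11 / 12 + t by linarith),
      abs_of_nonneg (show 0 ≤ 11 / 12 - t by linarith)]
    linarith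
  · refine lt_of_le_of_lt ?_ h2
    rcases le_total 0 t with h3 | h3
    · rw [abs_of_nonneg h3] at h ⊢
      rw [abs_of_nonneg (show 0 ≤ 11 / 12 + t by linarith),
        abs_of_nonpos (show 11 / 12 - t ≤ 0 by linarith)]
      linarith
    · rw [abs_of_nonpos h3] at h ⊢
      rw [abs_of_nonpos (show 11 / 12 + t ≤ 0 by linarith),
        abs_of_nonneg (show 0 ≤ 11 / 12 - t by linarith)]
      linarith

lemma int_id_X : Integrable (fun x : ℝ => x) (lam.map qX) :=
  (integrable_map_measure aestronglyMeasurable_id qX_meas.aemeasurable).2 qX_int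

lemma int_id_Y : Integrable (fun x : ℝ => x) (lam.map qY) :=
  (integrable_map_measure aestronglyMeasurable_id qY_meas.aemeasurable).2 qY_int

lemma mean_eq : ∫ x, x ∂(lam.map qX) = ∫ x, x ∂(lam.map qY) := by
  rw [integral_map (f := fun x : ℝ => x) qX_meas.aemeasurable aestronglyMeasurable_id,
    integral_map (f := fun x : ℝ => x) qY_meas.aemeasurable aestronglyMeasurable_id]
  have h1 : ∫ u, qY u ∂lam = -1 / 4 := by
    unfold lam
    rw [← integral_Ioc_eq_integral_Ioo, ← intervalIntegral.integral_of_le zero_le_one,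
      inner_qY zero_le_one le_rfl]
    norm_num
  rw [h1, int_qX (fun x => x)]
  norm_num

lemma int_conv {μ ν : Measure ℝ} [IsProbabilityMeasure μ] [IsProbabilityMeasure ν]
    (hμ : Integrable (fun x : ℝ => x) μ) (hν : Integrable (fun x : ℝ => x) ν) :
    Integrable (fun x : ℝ => x) (μ.conv ν) := by
  rw [Measure.conv]
  refine (integrable_map_measure aestronglyMeasurable_id (by fun_prop)).2 ?_
  exact (hμ.comp_fst ν).add (hν.comp_snd μ)

lemma mean_conv {μ ν : Measure ℝ} [IsProbabilityMeasure μ] [IsProbabilityMeasure ν]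
    (hμ : Integrable (fun x : ℝ => x) μ) (hν : Integrable (fun x : ℝ => x) ν) :
    ∫ x, x ∂(μ.conv ν) = (∫ x, x ∂μ) + ∫ x, x ∂ν := by
  rw [Measure.conv, integral_map (f := fun x : ℝ => x) (by fun_prop) aestronglyMeasurable_id]
  rw [integral_add (hμ.comp_fst ν) (hν.comp_snd μ), integral_fun_fst (fun x : ℝ => x),
    integral_fun_snd (fun x : ℝ => x)]
  simp

/-- No noise works for this pair. -/
lemma no_noise (μZ : Measure ℝ) [IsProbabilityMeasure μZ] (hZ : Integrable (fun x : ℝ => x) μZ) :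
    ¬ InvLE 3 ((lam.map qX).conv μZ) ((lam.map qY).conv μZ) := by
  intro h
  have h' : ∀ p ∈ Ioo (0 : ℝ) 1, iq ((lam.map qX).conv μZ) 2 p ≤ iq ((lam.map qY).conv μZ) 2 p := h
  by_cases hnd : (μZ.prod μZ) {p : ℝ × ℝ | p.1 ≠ p.2} = 0
  · obtain ⟨c, rfl⟩ := dirac_of_null μZ hnd
    have h1 := h' (1 / 2) ⟨by norm_num, by norm_num⟩
    rw [iq2_shift _ int_id_X c ⟨by norm_num, by norm_num⟩,
      iq2_shift _ int_id_Y c ⟨by norm_num, by norm_num⟩, iqX_half,
      iqY (by norm_num) (by norm_num)] at h1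
    norm_num at h1
    linarith
  · have h1 := GMD_conv_lt (lam.map qX) (lam.map qY) μZ int_id_X hZ VL_zero VL_lt hnd
    have h2 := GMD_le_of_dom _ _ (int_conv int_id_X hZ) (int_conv int_id_Y hZ)
      (by rw [mean_conv int_id_X hZ, mean_conv int_id_Y hZ, mean_eq]) h'
    exact absurd h1 (not_lt.2 h2)

/-- **Disproof of MP_dbe012, Q1** (the negated form holds with `n = 3`). There are integrable laws
`μX, μY` with `μ_{1:1}^X = μ_{1:1}^Y`, `μ_{1:2}^X = μ_{1:2}^Y`, `μ_{1:3}^X > μ_{1:3}^Y` such that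
for every integrable law `μZ` of an independent noise, `X + Z ≤₃⁻ Y + Z` fails, hence also
`X + Z <₃⁻ Y + Z` fails; consequently the assertion of Q1 is false. -/
theorem result :
    (∃ μX μY : Measure ℝ, IsProbabilityMeasure μX ∧ IsProbabilityMeasure μY ∧
      Integrable (fun x : ℝ => x) μX ∧ Integrable (fun x : ℝ => x) μY ∧
      (∀ k : ℕ, 1 ≤ k → k ≤ 3 - 1 → mm μX k = mm μY k) ∧ mm μX 3 > mm μY 3 ∧
      ∀ μZ : Measure ℝ, IsProbabilityMeasure μZ → Integrable (fun x : ℝ => x) μZ →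
        ¬ InvLE 3 (μX.conv μZ) (μY.conv μZ)) ∧
    ¬ (∀ n : ℕ, 2 < n → ∀ μX μY : Measure ℝ, IsProbabilityMeasure μX → IsProbabilityMeasure μY →
      Integrable (fun x : ℝ => x) μX → Integrable (fun x : ℝ => x) μY →
      (∀ k : ℕ, 1 ≤ k → k ≤ n - 1 → mm μX k = mm μY k) → mm μX n > mm μY n →
      ∃ μZ : Measure ℝ, IsProbabilityMeasure μZ ∧ Integrable (fun x : ℝ => x) μZ ∧
        InvLT n (μX.conv μZ) (μY.conv μZ)) := by
  have main : (∃ μX μY : Measure ℝ, IsProbabilityMeasure μX ∧ IsProbabilityMeasure μY ∧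
      Integrable (fun x : ℝ => x) μX ∧ Integrable (fun x : ℝ => x) μY ∧
      (∀ k : ℕ, 1 ≤ k → k ≤ 3 - 1 → mm μX k = mm μY k) ∧ mm μX 3 > mm μY 3 ∧
      ∀ μZ : Measure ℝ, IsProbabilityMeasure μZ → Integrable (fun x : ℝ => x) μZ →
        ¬ InvLE 3 (μX.conv μZ) (μY.conv μZ)) := by
    refine ⟨lam.map qX, lam.map qY, inferInstance, inferInstance, int_id_X, int_id_Y, ?_, ?_, ?_⟩
    · intro k hk1 hk2
      have : k = 1 ∨ k = 2 := by omega
      rcases this with rfl | rfl
      · rw [mmX1, mmY1]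
      · rw [mmX2, mmY2]
    · rw [mmX3, mmY3]; norm_num
    · intro μZ hp hi
      exact no_noise μZ hi
  refine ⟨main, ?_⟩
  intro hall
  obtain ⟨μX, μY, pX, pY, iX, iY, hk, h3, hno⟩ := main
  obtain ⟨μZ, pZ, iZ, hlt⟩ := hall 3 (by norm_num) μX μY pX pY iX iY hk h3
  exact hno μZ pZ iZ hlt.1

end Pool.Agent.Results.MP_dbe012_pr.NoNoise
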